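import Mathlib

open MeasureTheory Filter Topology

namespace Pool.Agent.Helper234.LInfS

section
variable {𝕜 : Type*} [RCLike 𝕜] {X : Type*} [NormedAddCommGroup X] [NormedSpace 𝕜 X]
  {V : Type*} [NormedAddCommGroup V] [NormedSpace 𝕜 V]

/-- A uniformly bounded sequence of operators into `X` gives an operator into `ℓ^∞(X)`. -/
noncomputable def toLinf (g : ℕ → V →L[𝕜] X) (C : ℝ) (h : ∀ n v, ‖g n v‖ ≤ C * ‖v‖) :
    V →L[𝕜] lp (fun _ : ℕ => X) ⊤ :=
  LinearMap.mkContinuous
    { toFun := fun v => ⟨fun n => g n v, memℓp_infty ⟨C * ‖v‖, by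
        rintro _ ⟨n, rfl⟩; exact h n v⟩⟩
      map_add' := fun v w => by ext n; exact (g n).map_add v w
      map_smul' := fun c v => by ext n; exact (g n).map_smul c v } (max C 0) (fun v => by
        refine lp.norm_le_of_forall_le (by positivity) (fun n => (h n v).trans ?_)
        gcongr; exact le_max_left _ _)

@[simp] theorem toLinf_apply (g : ℕ → V →L[𝕜] X) (C : ℝ) (h : ∀ n v, ‖g n v‖ ≤ C * ‖v‖)
    (v : V) (n : ℕ) : (toLinf g C h v) n = g n v := rfl

/-- Evaluation of a bounded sequence at an index. -/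
noncomputable def evalL (𝕜 : Type*) [RCLike 𝕜] (X : Type*) [NormedAddCommGroup X]
    [NormedSpace 𝕜 X] (n : ℕ) : lp (fun _ : ℕ => X) ⊤ →L[𝕜] X :=
  LinearMap.mkContinuous
    { toFun := fun x => x n
      map_add' := fun v w => by simp
      map_smul' := fun c v => by simp } 1 (fun v => by
        rw [one_mul]; exact lp.norm_apply_le_norm (by simp) v n)

@[simp] theorem evalL_apply (n : ℕ) (x : lp (fun _ : ℕ => X) ⊤) : evalL 𝕜 X n x = x n := rfl

theorem norm_coord_le (x : lp (fun _ : ℕ => X) ⊤) (n : ℕ) : ‖x n‖ ≤ ‖x‖ :=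
  lp.norm_apply_le_norm (by simp) x n

end

/-- The space of bounded sequences is isomorphic to its square (even/odd coordinates). -/
theorem square_lp (𝕜 : Type) [RCLike 𝕜] (X : Type*) [NormedAddCommGroup X] [NormedSpace 𝕜 X] :
    Nonempty (lp (fun _ : ℕ => X) ⊤ ≃L[𝕜] lp (fun _ : ℕ => X) ⊤ × lp (fun _ : ℕ => X) ⊤) := by
  let f : lp (fun _ : ℕ => X) ⊤ →L[𝕜] lp (fun _ : ℕ => X) ⊤ × lp (fun _ : ℕ => X) ⊤ :=
    (toLinf (fun n => evalL 𝕜 X (2 * n)) 1 (fun n v => by
      rw [one_mul]; exact norm_coord_le _ _)).prod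
    (toLinf (fun n => evalL 𝕜 X (2 * n + 1)) 1 (fun n v => by
      rw [one_mul]; exact norm_coord_le _ _))
  let g : lp (fun _ : ℕ => X) ⊤ × lp (fun _ : ℕ => X) ⊤ →L[𝕜] lp (fun _ : ℕ => X) ⊤ :=
    toLinf (fun n => if n % 2 = 0 then
        (evalL 𝕜 X (n / 2)).comp (ContinuousLinearMap.fst 𝕜 _ _)
        else (evalL 𝕜 X (n / 2)).comp (ContinuousLinearMap.snd 𝕜 _ _)) 1 (fun n v => by
      rw [one_mul]
      split_ifs
      · exact (norm_coord_le _ _).trans (norm_fst_le v)
      · exact (norm_coord_le _ _).trans (norm_snd_le v))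
  refine ⟨ContinuousLinearEquiv.equivOfInverse f g (fun x => ?_) (fun y => ?_)⟩
  · ext n
    rcases Nat.even_or_odd' n with ⟨k, hk | hk⟩
    · subst hk
      simp [f, g]
    · subst hk
      have h1 : (2 * k + 1) % 2 = 1 := by omega
      have h2 : (2 * k + 1) / 2 = k := by omega
      simp [f, g, h1, h2]
  · refine Prod.ext ?_ ?_
    · ext n
      simp [f, g]
    · ext n
      have h1 : (2 * n + 1) % 2 = 1 := by omega
      have h2 : (2 * n + 1) / 2 = n := by omega
      simp [f, g, h1, h2]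

end Pool.Agent.Helper234.LInfS
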