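import Mathlib
import Pool.Agent.Helper234.LInf.Defs
import Pool.Agent.Helper234.LInfS.Basic

open MeasureTheory Filter Topology

namespace Pool.Agent.Helper234.LInfS

open Pool.Agent.Helper234.LInf

/-- The dyadic interval `[k/2^m, (k+1)/2^m)`. -/
def Dy (m k : ℕ) : Set ℝ := Set.Ico ((k : ℝ) / 2 ^ m) (((k : ℝ) + 1) / 2 ^ m)

theorem measurableSet_Dy (m k : ℕ) : MeasurableSet (Dy m k) := measurableSet_Ico

theorem mem_Dy_iff {m k : ℕ} {t : ℝ} (ht : 0 ≤ t) : t ∈ Dy m k ↔ ⌊2 ^ m * t⌋₊ = k := by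
  have h2 : (0 : ℝ) < 2 ^ m := by positivity
  rw [Nat.floor_eq_iff (by positivity)]
  simp only [Dy, Set.mem_Ico]
  rw [div_le_iff₀ h2, lt_div_iff₀ h2, mul_comm t]

instance : IsProbabilityMeasure I01 := by
  constructor
  simp [I01]

theorem I01_ae_mem : ∀ᵐ t ∂I01, t ∈ Set.Ico (0 : ℝ) 1 := by
  have : I01 = (volume : Measure ℝ).restrict (Set.Ico (0 : ℝ) 1) := by
    unfold I01
    exact (Measure.restrict_congr_set Ico_ae_eq_Icc).symm
  rw [this]
  exact ae_restrict_mem measurableSet_Ico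

theorem I01_Dy_le (m k : ℕ) : I01 (Dy m k) ≤ ENNReal.ofReal ((2 ^ m)⁻¹) := by
  refine (Measure.restrict_apply_le _ _).trans ?_
  simp only [Dy, Real.volume_Ico]
  apply le_of_eq
  congr 1
  field_simp
  ring

theorem step_sum {𝕜 : Type*} [RCLike 𝕜] {X : Type*} [NormedAddCommGroup X] [NormedSpace 𝕜 X]
    [NormedSpace ℝ X] [IsScalarTower ℝ 𝕜 X] [CompleteSpace X]
    (h : ℝ → 𝕜) (hh : Integrable h I01) (m : ℕ) (c : ℕ → X) :
    ∑ k ∈ Finset.range (2 ^ m), (∫ t in Dy m k, h t ∂I01) • c k =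
      ∫ t, h t • c ⌊2 ^ m * t⌋₊ ∂I01 := by
  have h1 : (fun t => h t • c ⌊2 ^ m * t⌋₊) =ᵐ[I01]
      fun t => ∑ k ∈ Finset.range (2 ^ m), (Dy m k).indicator h t • c k := by
    filter_upwards [I01_ae_mem] with t ht
    have hk : ⌊2 ^ m * t⌋₊ < 2 ^ m := by
      rw [Nat.floor_lt (by have := ht.1; positivity)]
      push_cast
      have := ht.2
      have h2 : (0 : ℝ) < 2 ^ m := by positivity
      nlinarith
    rw [Finset.sum_eq_single ⌊2 ^ m * t⌋₊]
    · rw [Set.indicator_of_mem ((mem_Dy_iff ht.1).2 rfl)]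
    · intro b _ hb
      rw [Set.indicator_of_notMem (fun hm => hb ((mem_Dy_iff ht.1).1 hm).symm), zero_smul]
    · intro hn
      exact absurd (Finset.mem_range.2 hk) hn
  rw [integral_congr_ae h1, integral_finset_sum]
  · refine Finset.sum_congr rfl (fun k _ => ?_)
    rw [← integral_indicator (measurableSet_Dy m k)]
    exact (integral_smul_const _ _).symm
  · intro k _
    exact (hh.indicator (measurableSet_Dy m k)).smul_const _

end Pool.Agent.Helper234.LInfS
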