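import Mathlib
import Pool.Agent.Helper234.LInf.Defs
import Pool.Agent.Helper234.LInfS.Basic
import Pool.Agent.Helper234.LInfS.Dyadic

open MeasureTheory Filter Topology

namespace Pool.Agent.Helper234.LInfS

open Pool.Agent.Helper234.LInf

/-- A Lipschitz function which is differentiable (in the ratio sense) at `t` has converging dyadic
difference quotients at `t`. -/
theorem dyadic_quot_aux {X : Type*} [NormedAddCommGroup X] [NormedSpace ℝ X]
    (F : ℝ → X) (t : ℝ) (ht : 0 ≤ t) (v : X)
    (h : Tendsto (fun h : ℝ => h⁻¹ • (F (t + h) - F t)) (𝓝[≠] 0) (𝓝 v)) :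
    Tendsto (fun m : ℕ => (2 ^ m : ℝ) •
      (F (((⌊2 ^ m * t⌋₊ : ℝ) + 1) / 2 ^ m) - F ((⌊2 ^ m * t⌋₊ : ℝ) / 2 ^ m))) atTop (𝓝 v) := by
  classical
  set G : ℝ → X := fun h => if h = 0 then v else h⁻¹ • (F (t + h) - F t) with hG
  have hG0 : Tendsto G (𝓝 0) (𝓝 v) := by
    have : G = Function.update (fun h : ℝ => h⁻¹ • (F (t + h) - F t)) 0 v := by
      funext x
      by_cases hx : x = 0
      · subst hx; simp [hG]
      · simp [hG, hx]
    have h2 : ContinuousAt G 0 := by
      rw [this, continuousAt_update_same]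
      exact h
    have h3 : G 0 = v := by simp [hG]
    have h4 := h2.tendsto
    rwa [h3] at h4
  have hGF : ∀ x, x • G x = F (t + x) - F t := by
    intro x
    by_cases hx : x = 0
    · subst hx; simp
    · simp only [hG, if_neg hx]
      rw [smul_smul, mul_inv_cancel₀ hx, one_smul]
  set a : ℕ → ℝ := fun m => (⌊2 ^ m * t⌋₊ : ℝ) / 2 ^ m with ha
  set b : ℕ → ℝ := fun m => ((⌊2 ^ m * t⌋₊ : ℝ) + 1) / 2 ^ m with hb
  have hat : ∀ m, a m ≤ t := fun m => by
    simp only [ha]
    rw [div_le_iff₀ (by positivity), mul_comm t]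
    exact Nat.floor_le (by positivity)
  have htb : ∀ m, t ≤ b m := fun m => by
    simp only [hb]
    rw [le_div_iff₀ (by positivity), mul_comm t]
    exact (Nat.lt_floor_add_one _).le
  have hba : ∀ m, (2 : ℝ) ^ m * (b m - a m) = 1 := fun m => by
    simp only [ha, hb]
    field_simp
    ring
  have hlim : Tendsto (fun m : ℕ => ((2 : ℝ) ^ m)⁻¹) atTop (𝓝 0) := by
    have := tendsto_pow_atTop_nhds_zero_of_lt_one (r := (1 / 2 : ℝ)) (by norm_num) (by norm_num)
    refine this.congr fun m => ?_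
    rw [one_div, inv_pow]
  have hbal : ∀ m, b m - a m = ((2 : ℝ) ^ m)⁻¹ := fun m => by
    have := hba m
    exact eq_inv_of_mul_eq_one_right this
  have hb0 : Tendsto (fun m => b m - t) atTop (𝓝 0) := by
    refine squeeze_zero (fun m => sub_nonneg.2 (htb m)) (fun m => ?_) hlim
    rw [← hbal m]
    have := hat m
    linarith
  have ha0 : Tendsto (fun m => a m - t) atTop (𝓝 0) := by
    have h1 : Tendsto (fun m => t - a m) atTop (𝓝 0) := by
      refine squeeze_zero (fun m => sub_nonneg.2 (hat m)) (fun m => ?_) hlim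
      rw [← hbal m]
      have := htb m
      linarith
    have h2 := h1.neg
    rw [neg_zero] at h2
    refine h2.congr fun m => ?_
    ring
  have h1 : Tendsto (fun m => ‖G (b m - t) - v‖ + ‖G (a m - t) - v‖) atTop (𝓝 0) := by
    have e1 := ((hG0.comp hb0).sub_const v).norm
    have e2 := ((hG0.comp ha0).sub_const v).norm
    have e3 := e1.add e2
    simpa using e3
  rw [tendsto_iff_norm_sub_tendsto_zero]
  refine squeeze_zero (fun _ => norm_nonneg _) (fun m => ?_) h1
  have hkey : (2 ^ m : ℝ) • (F (b m) - F (a m)) - v =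
      ((2 : ℝ) ^ m * (b m - t)) • (G (b m - t) - v) + ((2 : ℝ) ^ m * (t - a m)) • (G (a m - t) - v) := by
    have e1 := hGF (b m - t)
    have e2 := hGF (a m - t)
    rw [add_sub_cancel] at e1 e2
    have e3 : F (b m) - F (a m) = (b m - t) • G (b m - t) - (a m - t) • G (a m - t) := by
      rw [e1, e2]; abel
    have e4 : v = ((2 : ℝ) ^ m * (b m - t)) • v + ((2 : ℝ) ^ m * (t - a m)) • v := by
      rw [← add_smul, ← mul_add]
      have : b m - t + (t - a m) = b m - a m := by ring
      rw [this, hba, one_smul]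
    rw [e3, smul_sub, smul_sub, smul_sub, smul_smul, smul_smul]
    have e5 : ((2 : ℝ) ^ m * (a m - t)) • G (a m - t) = -(((2 : ℝ) ^ m * (t - a m)) • G (a m - t)) := by
      rw [← neg_smul]; congr 1; ring
    rw [e5]
    nth_rewrite 1 [e4]
    abel
  rw [hkey]
  refine (norm_add_le _ _).trans ?_
  rw [norm_smul, norm_smul]
  have w1 : 0 ≤ (2 : ℝ) ^ m * (b m - t) := mul_nonneg (by positivity) (sub_nonneg.2 (htb m))
  have w2 : 0 ≤ (2 : ℝ) ^ m * (t - a m) := mul_nonneg (by positivity) (sub_nonneg.2 (hat m))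
  have w3 : (2 : ℝ) ^ m * (b m - t) + (2 : ℝ) ^ m * (t - a m) = 1 := by
    rw [← mul_add]
    have : b m - t + (t - a m) = b m - a m := by ring
    rw [this, hba]
  rw [Real.norm_of_nonneg w1, Real.norm_of_nonneg w2]
  refine add_le_add ?_ ?_
  · exact mul_le_of_le_one_left (norm_nonneg _) (by linarith)
  · exact mul_le_of_le_one_left (norm_nonneg _) (by linarith)

/-- Lebesgue differentiation along dyadic intervals (ratio form). -/
theorem dyadic_ae {X : Type*} [NormedAddCommGroup X] [NormedSpace ℝ X] [CompleteSpace X]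
    (f : ℝ → X) (hf : Integrable f I01) :
    ∀ᵐ t ∂I01, Tendsto (fun m : ℕ => (2 ^ m : ℝ) • ∫ s in Dy m ⌊2 ^ m * t⌋₊, f s ∂I01) atTop
      (𝓝 (f t)) := by
  have hg : Integrable ((Set.Icc (0:ℝ) 1).indicator f) volume := by
    rw [integrable_indicator_iff measurableSet_Icc]
    exact hf
  have hd := LocallyIntegrable.ae_hasDerivAt_integral hg.locallyIntegrable
  unfold I01
  rw [ae_restrict_iff' measurableSet_Icc]
  filter_upwards [hd] with t ht htI
  have h0 := ht 0
  have h1 := h0.tendsto_slope_zero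
  rw [Set.indicator_of_mem htI] at h1
  have h2 := dyadic_quot_aux (fun x => ∫ s in (0:ℝ)..x, (Set.Icc (0:ℝ) 1).indicator f s) t htI.1 (f t) h1
  refine h2.congr fun m => ?_
  congr 1
  rw [intervalIntegral.integral_interval_sub_left (hg.intervalIntegrable) (hg.intervalIntegrable),
    intervalIntegral.integral_of_le (by gcongr; linarith), ← integral_Ico_eq_integral_Ioc,
    Measure.restrict_restrict (by unfold Dy; exact measurableSet_Ico), setIntegral_indicator measurableSet_Icc]
  rfl

/-- A Lipschitz function which is differentiable (in the ratio sense) at `t` has converging dyadic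
difference quotients at `t`. -/
theorem dyadic_quot {X : Type*} [NormedAddCommGroup X] [NormedSpace ℝ X]
    (F : ℝ → X) (t : ℝ) (ht : 0 ≤ t) (v : X)
    (h : Tendsto (fun h : ℝ => h⁻¹ • (F (t + h) - F t)) (𝓝[≠] 0) (𝓝 v)) :
    Tendsto (fun m : ℕ => (2 ^ m : ℝ) •
      (F (((⌊2 ^ m * t⌋₊ : ℝ) + 1) / 2 ^ m) - F ((⌊2 ^ m * t⌋₊ : ℝ) / 2 ^ m))) atTop (𝓝 v) :=
  dyadic_quot_aux F t ht v h

end Pool.Agent.Helper234.LInfS
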