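import Mathlib
import Pool.Agent.Helper234.LInf.Defs
import Pool.Agent.Helper234.LInfS.Basic
import Pool.Agent.Helper234.LInfS.Dyadic

open MeasureTheory Filter Topology

namespace Pool.Agent.Helper234.LInfS

open Pool.Agent.Helper234.LInf

/-- index of the piece -/
noncomputable def compl1_n (t : ℝ) : ℕ := ⌊1 / t⌋₊ - 1

theorem compl1_n_meas : Measurable compl1_n := by
  unfold compl1_n
  have h1 : Measurable fun t : ℝ => ⌊1 / t⌋₊ := Nat.measurable_floor.comp (by fun_prop)
  exact (measurable_from_top (f := fun m : ℕ => m - 1)).comp h1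

/-- the pieces -/
def compl1_B (n : ℕ) : Set ℝ := Set.Ioc (1 / ((n : ℝ) + 2)) (1 / ((n : ℝ) + 1))

theorem compl1_B_meas (n : ℕ) : MeasurableSet (compl1_B n) := measurableSet_Ioc

theorem compl1_n_eq {n : ℕ} {t : ℝ} (ht : t ∈ compl1_B n) : compl1_n t = n := by
  obtain ⟨h1, h2⟩ := ht
  have hn1 : (0 : ℝ) < (n : ℝ) + 1 := by positivity
  have hn2 : (0 : ℝ) < (n : ℝ) + 2 := by positivity
  have ht0 : 0 < t := lt_trans (by positivity) h1
  have h3 : ⌊1 / t⌋₊ = n + 1 := by
    rw [Nat.floor_eq_iff (by positivity)]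
    push_cast
    constructor
    · rw [le_div_iff₀ ht0]
      rw [le_div_iff₀ hn1] at h2
      linarith
    · rw [div_lt_iff₀ ht0]
      rw [div_lt_iff₀ hn2] at h1
      linarith
  unfold compl1_n
  rw [h3]; rfl

theorem compl1_B_pos (n : ℕ) : 0 < I01.real (compl1_B n) := by
  have hn1 : (0 : ℝ) < (n : ℝ) + 1 := by positivity
  have hn2 : (0 : ℝ) < (n : ℝ) + 2 := by positivity
  have hsub : compl1_B n ⊆ Set.Icc 0 1 := by
    rintro t ⟨h1, h2⟩
    refine ⟨(lt_trans (by positivity) h1).le, h2.trans ?_⟩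
    rw [div_le_one hn1]
    linarith [(Nat.cast_nonneg n : (0 : ℝ) ≤ n)]
  have h : I01 (compl1_B n) = ENNReal.ofReal (1 / ((n : ℝ) + 1) - 1 / ((n : ℝ) + 2)) := by
    unfold I01
    rw [Measure.restrict_apply (compl1_B_meas n), Set.inter_eq_left.2 hsub]
    exact Real.volume_Ioc
  have h2 : 0 < 1 / ((n : ℝ) + 1) - 1 / ((n : ℝ) + 2) := by
    rw [sub_pos]
    exact one_div_lt_one_div_of_lt hn1 (by linarith)
  rw [Measure.real, h, ENNReal.toReal_ofReal h2.le]
  exact h2

theorem compl1_ae {X : Type*} [NormedAddCommGroup X] (f : Lp X ⊤ I01) :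
    ∀ᵐ t ∂I01, ‖f t‖ ≤ ‖f‖ := by
  filter_upwards [ae_le_eLpNormEssSup (f := f) (μ := I01)] with t ht
  have h1 : eLpNormEssSup f I01 ≠ ⊤ := by
    rw [← eLpNorm_exponent_top]; exact Lp.eLpNorm_ne_top f
  have h2 := ENNReal.toReal_mono h1 ht
  rw [Lp.norm_def, eLpNorm_exponent_top]
  simpa using h2

theorem compl1_memLp {X : Type*} [NormedAddCommGroup X] (x : lp (fun _ : ℕ => X) ⊤) :
    MemLp (fun t => x (compl1_n t)) ⊤ I01 := by
  refine memLp_top_of_bound ?_ ‖x‖ (Eventually.of_forall fun t => ?_)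
  · exact ((StronglyMeasurable.of_discrete (f := fun n : ℕ => x n)).comp_measurable
      compl1_n_meas).aestronglyMeasurable
  · exact lp.norm_apply_le_norm (by norm_num) x _

/-- the averages -/
noncomputable def compl1_av {X : Type*} [NormedAddCommGroup X] [NormedSpace ℝ X]
    (f : ℝ → X) (n : ℕ) : X := (I01.real (compl1_B n))⁻¹ • ∫ t in compl1_B n, f t ∂I01

theorem compl1_av_norm {X : Type*} [NormedAddCommGroup X] [NormedSpace ℝ X]
    (f : Lp X ⊤ I01) (n : ℕ) : ‖compl1_av f n‖ ≤ ‖f‖ := by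
  have h := norm_setIntegral_le_of_norm_le_const_ae (μ := I01) (s := compl1_B n) (f := f) (C := ‖f‖)
    (measure_lt_top _ _) (ae_restrict_of_ae (compl1_ae f))
  have hp := compl1_B_pos n
  unfold compl1_av
  rw [norm_smul, Real.norm_eq_abs, abs_of_pos (inv_pos.2 hp)]
  calc (I01.real (compl1_B n))⁻¹ * ‖∫ t in compl1_B n, f t ∂I01‖ ≤
      (I01.real (compl1_B n))⁻¹ * (‖f‖ * I01.real (compl1_B n)) :=
        mul_le_mul_of_nonneg_left h (inv_pos.2 hp).le
    _ = ‖f‖ := by field_simp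

theorem compl1_av_const {X : Type*} [NormedAddCommGroup X] [NormedSpace ℝ X] [CompleteSpace X]
    {f : ℝ → X} {x : ℕ → X} (h : f =ᵐ[I01] fun t => x (compl1_n t)) (n : ℕ) :
    compl1_av f n = x n := by
  have hp := compl1_B_pos n
  have h1 : ∫ t in compl1_B n, f t ∂I01 = ∫ _t in compl1_B n, x n ∂I01 := by
    refine setIntegral_congr_ae (compl1_B_meas n) ?_
    filter_upwards [h] with t ht htB
    rw [ht, compl1_n_eq htB]
  unfold compl1_av
  rw [h1, setIntegral_const, smul_smul, inv_mul_cancel₀ hp.ne', one_smul]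

theorem compl1_integrable {X : Type*} [NormedAddCommGroup X] (f : Lp X ⊤ I01) (n : ℕ) :
    Integrable f (I01.restrict (compl1_B n)) :=
  ((Lp.memLp f).integrable le_top).integrableOn

/-- `ℓ^∞(X)` is complemented in `L^∞([0,1],X)`: step functions on a countable partition, and
averages over its pieces. -/
theorem compl1 (𝕜 : Type) [RCLike 𝕜] (X : Type*) [NormedAddCommGroup X] [NormedSpace 𝕜 X]
    [CompleteSpace X] :
    ∃ (i : lp (fun _ : ℕ => X) ⊤ →L[𝕜] Lp X ⊤ I01) (p : Lp X ⊤ I01 →L[𝕜] lp (fun _ : ℕ => X) ⊤),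
      ∀ x, p (i x) = x := by
  let _ : NormedSpace ℝ X := NormedSpace.restrictScalars ℝ 𝕜 X
  have : IsScalarTower ℝ 𝕜 X := IsScalarTower.restrictScalars ℝ 𝕜 X
  have : SMulCommClass ℝ 𝕜 X := inferInstance
  let iL : lp (fun _ : ℕ => X) ⊤ →ₗ[𝕜] Lp X ⊤ I01 :=
    { toFun := fun x => (compl1_memLp x).toLp _
      map_add' := fun x y => by
        rw [← MemLp.toLp_add]
        rfl
      map_smul' := fun c x => by
        rw [RingHom.id_apply, ← MemLp.toLp_const_smul]
        rfl }
  have hi : ∀ x, ‖iL x‖ ≤ 1 * ‖x‖ := by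
    intro x
    rw [one_mul]
    have h1 := Lp.norm_le_of_ae_bound (f := iL x) (C := ‖x‖) (norm_nonneg _) (by
      filter_upwards [(compl1_memLp x).coeFn_toLp] with t ht
      show ‖((compl1_memLp x).toLp _ : Lp X ⊤ I01) t‖ ≤ ‖x‖
      rw [ht]
      exact lp.norm_apply_le_norm (by norm_num) x _)
    simpa using h1
  have hmem : ∀ f : Lp X ⊤ I01, Memℓp (fun n => compl1_av f n) ⊤ := by
    intro f
    refine memℓp_infty ⟨‖f‖, ?_⟩
    rintro _ ⟨n, rfl⟩
    exact compl1_av_norm f n
  let pL : Lp X ⊤ I01 →ₗ[𝕜] lp (fun _ : ℕ => X) ⊤ :=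
    { toFun := fun f => ⟨fun n => compl1_av f n, hmem f⟩
      map_add' := fun f g => by
        ext n
        show compl1_av (↑(f + g)) n = compl1_av f n + compl1_av g n
        unfold compl1_av
        rw [← smul_add, ← integral_add (compl1_integrable f n) (compl1_integrable g n)]
        congr 1
        exact integral_congr_ae (ae_restrict_of_ae (Lp.coeFn_add f g))
      map_smul' := fun c f => by
        ext n
        show compl1_av (↑(c • f)) n = c • compl1_av f n
        unfold compl1_av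
        have e : ∫ t in compl1_B n, (c • f : Lp X ⊤ I01) t ∂I01 =
            c • ∫ t in compl1_B n, f t ∂I01 := by
          rw [← integral_smul]
          exact integral_congr_ae (ae_restrict_of_ae (Lp.coeFn_smul c f))
        rw [e, smul_comm] }
  have hp : ∀ f, ‖pL f‖ ≤ 1 * ‖f‖ := by
    intro f
    rw [one_mul]
    exact lp.norm_le_of_forall_le (norm_nonneg _) fun n => compl1_av_norm f n
  refine ⟨iL.mkContinuous 1 hi, pL.mkContinuous 1 hp, fun x => ?_⟩
  ext n
  show compl1_av (((compl1_memLp x).toLp _ : Lp X ⊤ I01)) n = x n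
  exact compl1_av_const (x := fun n => x n) (compl1_memLp x).coeFn_toLp n

end Pool.Agent.Helper234.LInfS
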