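import Mathlib
import Pool.Agent.Helper234.LInf.Defs
import Pool.Agent.Helper234.LInfS.Basic
import Pool.Agent.Helper234.LInfS.Dyadic

open MeasureTheory Filter Topology

namespace Pool.Agent.Helper234.LInfS

open Pool.Agent.Helper234.LInf

theorem norm_le_of_ae {X : Type*} [NormedAddCommGroup X] (f : Lp X ⊤ I01) (C : ℝ) (hC : 0 ≤ C)
    (h : ∀ᵐ x ∂I01, ‖f x‖ ≤ C) : ‖f‖ ≤ C := by
  have := Lp.norm_le_of_ae_bound hC h
  simpa using this

theorem ae_norm_le {X : Type*} [NormedAddCommGroup X] (f : Lp X ⊤ I01) :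
    ∀ᵐ x ∂I01, ‖f x‖ ≤ ‖f‖ := by
  have h := ae_le_eLpNormEssSup (f := (f : ℝ → X)) (μ := I01)
  filter_upwards [h] with x hx
  have h2 : eLpNormEssSup (f : ℝ → X) I01 = ENNReal.ofReal ‖f‖ := by
    rw [Lp.norm_def, ENNReal.ofReal_toReal (Lp.eLpNorm_ne_top f), eLpNorm_exponent_top]
  rw [h2] at hx
  have h3 : ENNReal.ofReal ‖f x‖ ≤ ENNReal.ofReal ‖f‖ := by
    rwa [ofReal_norm]
  exact (ENNReal.ofReal_le_ofReal_iff (norm_nonneg _)).1 h3

/-- operator on `L^∞` induced by an operator on functions -/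
theorem exists_op (𝕜 : Type) [RCLike 𝕜] (X : Type*) [NormedAddCommGroup X] [NormedSpace 𝕜 X]
    (L : (ℝ → X) → (ℝ → X))
    (hadd : ∀ f g, L (f + g) = L f + L g) (hsmul : ∀ (c : 𝕜) f, L (c • f) = c • L f)
    (hm : ∀ f, AEStronglyMeasurable f I01 → AEStronglyMeasurable (L f) I01)
    (hae : ∀ f g : ℝ → X, f =ᵐ[I01] g → L f =ᵐ[I01] L g)
    (hb : ∀ (f : ℝ → X) (C : ℝ), 0 ≤ C → (∀ᵐ x ∂I01, ‖f x‖ ≤ C) → ∀ᵐ x ∂I01, ‖L f x‖ ≤ C) :
    ∃ T : Lp X ⊤ I01 →L[𝕜] Lp X ⊤ I01, ∀ f : Lp X ⊤ I01, (T f : ℝ → X) =ᵐ[I01] L f := by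
  have hmem : ∀ f : Lp X ⊤ I01, MemLp (L f) ⊤ I01 := by
    intro f
    exact memLp_top_of_bound (hm f (Lp.aestronglyMeasurable f)) ‖f‖
      (hb f ‖f‖ (norm_nonneg _) (ae_norm_le f))
  let T0 : Lp X ⊤ I01 →ₗ[𝕜] Lp X ⊤ I01 :=
    { toFun := fun f => (hmem f).toLp (L f)
      map_add' := by
        intro f g
        apply Lp.ext
        have h1 := (hmem (f + g)).coeFn_toLp
        have h2 := Lp.coeFn_add ((hmem f).toLp (L f)) ((hmem g).toLp (L g))
        have h3 := (hmem f).coeFn_toLp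
        have h4 := (hmem g).coeFn_toLp
        have h5 := hae _ _ (Lp.coeFn_add f g)
        rw [hadd] at h5
        filter_upwards [h1, h2, h3, h4, h5] with x e1 e2 e3 e4 e5
        rw [e1, e2, Pi.add_apply, e3, e4, e5, Pi.add_apply]
      map_smul' := by
        intro c f
        apply Lp.ext
        have h1 := (hmem (c • f)).coeFn_toLp
        have h2 := Lp.coeFn_smul c ((hmem f).toLp (L f))
        have h3 := (hmem f).coeFn_toLp
        have h5 := hae _ _ (Lp.coeFn_smul c f)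
        rw [hsmul] at h5
        filter_upwards [h1, h2, h3, h5] with x e1 e2 e3 e5
        rw [e1, RingHom.id_apply, e2, Pi.smul_apply, e3, e5, Pi.smul_apply] }
  have hT0 : ∀ f : Lp X ⊤ I01, (T0 f : ℝ → X) =ᵐ[I01] L f := fun f => (hmem f).coeFn_toLp
  refine ⟨T0.mkContinuous 1 ?_, hT0⟩
  intro f
  rw [one_mul]
  apply norm_le_of_ae _ _ (norm_nonneg _)
  have h1 := hb f ‖f‖ (norm_nonneg _) (ae_norm_le f)
  filter_upwards [hT0 f, h1] with x e1 e2
  rw [e1]; exact e2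

theorem qmp (φ : ℝ → ℝ) (hφ : Measurable φ)
    (h0 : ∀ N : Set ℝ, volume N = 0 → volume (φ ⁻¹' N) = 0)
    (hmap : ∀ x ∈ Set.Icc (0 : ℝ) 1, φ x ∈ Set.Icc (0 : ℝ) 1) :
    Measure.QuasiMeasurePreserving φ I01 I01 := by
  refine ⟨hφ, Measure.AbsolutelyContinuous.mk ?_⟩
  intro N hN hN0
  rw [Measure.map_apply hφ hN]
  unfold I01 at hN0 ⊢
  rw [Measure.restrict_apply hN] at hN0
  rw [Measure.restrict_apply (hφ hN)]
  refine measure_mono_null ?_ (h0 _ hN0)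
  rintro x ⟨hx1, hx2⟩
  exact ⟨hx1, hmap x hx2⟩

theorem null_affine (a b : ℝ) (ha : a ≠ 0) (N : Set ℝ) (hN : volume N = 0) :
    volume ((fun x : ℝ => a * x + b) ⁻¹' N) = 0 := by
  have h1 : (fun x : ℝ => a * x + b) ⁻¹' N = (fun x => a * x) ⁻¹' ((fun x => x + b) ⁻¹' N) := rfl
  rw [h1, Real.volume_preimage_mul_left ha, measure_preimage_add_right, hN, mul_zero]

noncomputable def φ0 (t : ℝ) : ℝ := (1 / 2) * t + 0
noncomputable def φ1 (t : ℝ) : ℝ := (1 / 2) * t + 1 / 2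
noncomputable def ψ (t : ℝ) : ℝ := Int.fract (2 * t)

theorem qmp0 : Measure.QuasiMeasurePreserving φ0 I01 I01 := by
  refine qmp φ0 (by unfold φ0; fun_prop) (fun N hN => null_affine _ _ (by norm_num) N hN) ?_
  intro x hx
  unfold φ0
  constructor <;> linarith [hx.1, hx.2]

theorem qmp1 : Measure.QuasiMeasurePreserving φ1 I01 I01 := by
  refine qmp φ1 (by unfold φ1; fun_prop) (fun N hN => null_affine _ _ (by norm_num) N hN) ?_
  intro x hx
  unfold φ1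
  constructor <;> linarith [hx.1, hx.2]

theorem qmpψ : Measure.QuasiMeasurePreserving ψ I01 I01 := by
  refine qmp ψ (by unfold ψ; exact measurable_fract.comp (by fun_prop)) ?_ ?_
  · intro N hN
    have hsub : ψ ⁻¹' N ⊆ ⋃ k : ℤ, (fun x : ℝ => 2 * x + (-(k : ℝ))) ⁻¹' N := by
      intro x hx
      rw [Set.mem_iUnion]
      refine ⟨⌊2 * x⌋, ?_⟩
      show 2 * x + (-(⌊2 * x⌋ : ℝ)) ∈ N
      have : 2 * x + (-(⌊2 * x⌋ : ℝ)) = Int.fract (2 * x) := by
        rw [Int.fract]; ring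
      rw [this]
      exact hx
    refine measure_mono_null hsub (measure_iUnion_null ?_)
    intro k
    exact null_affine _ _ (by norm_num) N hN
  · intro x _
    exact ⟨Int.fract_nonneg _, (Int.fract_lt_one _).le⟩

theorem op_comp (𝕜 : Type) [RCLike 𝕜] (X : Type*) [NormedAddCommGroup X] [NormedSpace 𝕜 X]
    (φ : ℝ → ℝ) (hφ : Measure.QuasiMeasurePreserving φ I01 I01) (s : Set ℝ)
    (hs : MeasurableSet s) :
    ∃ T : Lp X ⊤ I01 →L[𝕜] Lp X ⊤ I01, ∀ f : Lp X ⊤ I01,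
      (T f : ℝ → X) =ᵐ[I01] s.indicator (fun x => (f : ℝ → X) (φ x)) := by
  apply exists_op 𝕜 X (fun f => s.indicator (fun x => f (φ x)))
  · intro f g
    funext x
    by_cases h : x ∈ s <;> simp [h]
  · intro c f
    funext x
    by_cases h : x ∈ s <;> simp [h]
  · intro f hf
    exact (hf.comp_quasiMeasurePreserving hφ).indicator hs
  · intro f g hfg
    have := hφ.ae_eq_comp hfg
    filter_upwards [this] with x hx
    by_cases h : x ∈ s
    · simp only [Set.indicator_of_mem h]; exact hx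
    · simp [h]
  · intro f C hC hf
    have := hφ.ae hf
    filter_upwards [this] with x hx
    by_cases h : x ∈ s
    · simp only [Set.indicator_of_mem h]; exact hx
    · simpa [h] using hC

theorem ae_Ico : ∀ᵐ x ∂I01, x ∈ Set.Ico (0 : ℝ) 1 := by
  have h1 : ∀ᵐ x ∂I01, x ∈ Set.Icc (0 : ℝ) 1 := by
    unfold I01
    exact ae_restrict_mem measurableSet_Icc
  have h2 : ∀ᵐ x ∂I01, x ≠ (1 : ℝ) := by
    unfold I01
    apply ae_restrict_of_ae
    rw [ae_iff]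
    simp
  filter_upwards [h1, h2] with x hx hx1
  exact ⟨hx.1, lt_of_le_of_ne hx.2 hx1⟩

/-- `L^∞([0,1],X)` is isomorphic to its square (the two halves of the interval). -/
theorem square_Lp (𝕜 : Type) [RCLike 𝕜] (X : Type*) [NormedAddCommGroup X] [NormedSpace 𝕜 X] :
    Nonempty (Lp X ⊤ I01 ≃L[𝕜] Lp X ⊤ I01 × Lp X ⊤ I01) := by
  obtain ⟨T0, hT0⟩ := op_comp 𝕜 X φ0 qmp0 Set.univ MeasurableSet.univ
  obtain ⟨T1, hT1⟩ := op_comp 𝕜 X φ1 qmp1 Set.univ MeasurableSet.univ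
  obtain ⟨S0, hS0⟩ := op_comp 𝕜 X ψ qmpψ (Set.Iio (1 / 2)) measurableSet_Iio
  obtain ⟨S1, hS1⟩ := op_comp 𝕜 X ψ qmpψ (Set.Ici (1 / 2)) measurableSet_Ici
  have hfr0 : ∀ x ∈ Set.Ico (0 : ℝ) 1, ψ (φ0 x) = x := by
    intro x hx
    unfold ψ φ0
    have : 2 * (1 / 2 * x + 0) = x := by ring
    rw [this]
    exact Int.fract_eq_self.2 hx
  have hfr1 : ∀ x ∈ Set.Ico (0 : ℝ) 1, ψ (φ1 x) = x := by
    intro x hx
    unfold ψ φ1
    have : 2 * (1 / 2 * x + 1 / 2) = x + 1 := by ring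
    rw [this, Int.fract_add_one]
    exact Int.fract_eq_self.2 hx
  have h00 : ∀ g, T0 (S0 g) = g := by
    intro g
    apply Lp.ext
    have e2 := qmp0.ae_eq_comp (hS0 g)
    filter_upwards [hT0 (S0 g), e2, ae_Ico] with x e1 e2 e3
    rw [e1, Set.indicator_univ]
    have e4 : ((S0 g : Lp X ⊤ I01) : ℝ → X) (φ0 x) =
        (Set.Iio (1 / 2 : ℝ)).indicator (fun x => (g : ℝ → X) (ψ x)) (φ0 x) := e2
    rw [e4, Set.indicator_of_mem, hfr0 x e3]
    show φ0 x < 1 / 2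
    unfold φ0
    linarith [e3.2]
  have h01 : ∀ g, T0 (S1 g) = 0 := by
    intro g
    apply Lp.ext
    have e2 := qmp0.ae_eq_comp (hS1 g)
    filter_upwards [hT0 (S1 g), e2, ae_Ico, Lp.coeFn_zero X ⊤ I01] with x e1 e2 e3 e0
    rw [e1, Set.indicator_univ, e0]
    have e4 : ((S1 g : Lp X ⊤ I01) : ℝ → X) (φ0 x) =
        (Set.Ici (1 / 2 : ℝ)).indicator (fun x => (g : ℝ → X) (ψ x)) (φ0 x) := e2
    rw [e4, Set.indicator_of_notMem]
    · rfl
    show ¬ (1 / 2 ≤ φ0 x)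
    unfold φ0
    linarith [e3.2]
  have h10 : ∀ g, T1 (S0 g) = 0 := by
    intro g
    apply Lp.ext
    have e2 := qmp1.ae_eq_comp (hS0 g)
    filter_upwards [hT1 (S0 g), e2, ae_Ico, Lp.coeFn_zero X ⊤ I01] with x e1 e2 e3 e0
    rw [e1, Set.indicator_univ, e0]
    have e4 : ((S0 g : Lp X ⊤ I01) : ℝ → X) (φ1 x) =
        (Set.Iio (1 / 2 : ℝ)).indicator (fun x => (g : ℝ → X) (ψ x)) (φ1 x) := e2
    rw [e4, Set.indicator_of_notMem]
    · rfl
    show ¬ (φ1 x < 1 / 2)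
    unfold φ1
    linarith [e3.1]
  have h11 : ∀ g, T1 (S1 g) = g := by
    intro g
    apply Lp.ext
    have e2 := qmp1.ae_eq_comp (hS1 g)
    filter_upwards [hT1 (S1 g), e2, ae_Ico] with x e1 e2 e3
    rw [e1, Set.indicator_univ]
    have e4 : ((S1 g : Lp X ⊤ I01) : ℝ → X) (φ1 x) =
        (Set.Ici (1 / 2 : ℝ)).indicator (fun x => (g : ℝ → X) (ψ x)) (φ1 x) := e2
    rw [e4, Set.indicator_of_mem, hfr1 x e3]
    show 1 / 2 ≤ φ1 x
    unfold φ1
    linarith [e3.1]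
  have hid : ∀ f, S0 (T0 f) + S1 (T1 f) = f := by
    intro f
    apply Lp.ext
    have e2 := qmpψ.ae_eq_comp (hT0 f)
    have e3 := qmpψ.ae_eq_comp (hT1 f)
    filter_upwards [Lp.coeFn_add (S0 (T0 f)) (S1 (T1 f)), hS0 (T0 f), hS1 (T1 f), e2, e3, ae_Ico]
      with x a1 a2 a3 a4 a5 a6
    rw [a1, Pi.add_apply, a2, a3]
    have a4' : ((T0 f : Lp X ⊤ I01) : ℝ → X) (ψ x) = (f : ℝ → X) (φ0 (ψ x)) := by
      have : ((T0 f : Lp X ⊤ I01) : ℝ → X) (ψ x) =
        (Set.univ : Set ℝ).indicator (fun x => (f : ℝ → X) (φ0 x)) (ψ x) := a4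
      rw [this, Set.indicator_univ]
    have a5' : ((T1 f : Lp X ⊤ I01) : ℝ → X) (ψ x) = (f : ℝ → X) (φ1 (ψ x)) := by
      have : ((T1 f : Lp X ⊤ I01) : ℝ → X) (ψ x) =
        (Set.univ : Set ℝ).indicator (fun x => (f : ℝ → X) (φ1 x)) (ψ x) := a5
      rw [this, Set.indicator_univ]
    by_cases hx : x < 1 / 2
    · rw [Set.indicator_of_mem (show x ∈ Set.Iio (1 / 2 : ℝ) from hx),
        Set.indicator_of_notMem (show x ∉ Set.Ici (1 / 2 : ℝ) from not_le.2 hx), add_zero, a4']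
      congr 1
      unfold φ0 ψ
      rw [Int.fract_eq_self.2 ⟨by linarith [a6.1], by linarith⟩]
      ring
    · rw [Set.indicator_of_notMem (show x ∉ Set.Iio (1 / 2 : ℝ) from hx),
        Set.indicator_of_mem (show x ∈ Set.Ici (1 / 2 : ℝ) from not_lt.1 hx), zero_add, a5']
      congr 1
      unfold φ1 ψ
      have h1 : 2 * x = (2 * x - 1) + 1 := by ring
      rw [h1, Int.fract_add_one, Int.fract_eq_self.2 ⟨by linarith [not_lt.1 hx], by linarith [a6.2]⟩]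
      ring
  refine ⟨ContinuousLinearEquiv.equivOfInverse (T0.prod T1)
    (S0.comp (ContinuousLinearMap.fst 𝕜 _ _) + S1.comp (ContinuousLinearMap.snd 𝕜 _ _)) ?_ ?_⟩
  · intro f
    exact hid f
  · rintro ⟨g, h⟩
    show (T0 (S0 g + S1 h), T1 (S0 g + S1 h)) = (g, h)
    rw [map_add, map_add, h00, h01, h10, h11, add_zero, zero_add]

end Pool.Agent.Helper234.LInfS
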