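import Mathlib
import Pool.Agent.Helper234.LInf.Defs
import Pool.Agent.Helper234.LInfS.Basic
import Pool.Agent.Helper234.LInfS.Decomp
import Pool.Agent.Helper234.LInfS.Square
import Pool.Agent.Helper234.LInfS.Compl1
import Pool.Agent.Helper234.LInfS.Compl2
import Pool.Agent.Helper234.LInfS.RNPRep

open MeasureTheory Filter Topology

namespace Pool.Agent.Helper234.LInfS

open Pool.Agent.Helper234.LInf

/-- Sufficiency: a limit operator together with complementation of the representable operators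
gives the isomorphism, for every Banach space. -/
theorem suff (𝕜 : Type) [RCLike 𝕜] (X : Type*) [NormedAddCommGroup X] [NormedSpace 𝕜 X]
    [CompleteSpace X] (h1 : LimitOperator 𝕜 X) (h2 : RepComplemented 𝕜 X) : Iso 𝕜 X := by
  obtain ⟨i, p, hip⟩ := compl1 𝕜 X
  obtain ⟨j, q, hjq⟩ := compl2 𝕜 X h1 h2
  exact decomp (square_Lp 𝕜 X) (square_lp 𝕜 X) j q hjq i p hip

/-- If `L^∞([0,1],X)` is complemented in `ℓ^∞(X)` then the two spaces are isomorphic. -/
theorem iso_of_compl (𝕜 : Type) [RCLike 𝕜] (X : Type*) [NormedAddCommGroup X] [NormedSpace 𝕜 X]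
    [CompleteSpace X] (j : Lp X ⊤ I01 →L[𝕜] lp (fun _ : ℕ => X) ⊤)
    (q : lp (fun _ : ℕ => X) ⊤ →L[𝕜] Lp X ⊤ I01) (hjq : ∀ f, q (j f) = f) : Iso 𝕜 X := by
  obtain ⟨i, p, hip⟩ := compl1 𝕜 X
  exact decomp (square_Lp 𝕜 X) (square_lp 𝕜 X) j q hjq i p hip

/-- Sufficiency for spaces with the Radon-Nikodym property. -/
theorem suff_rnp (𝕜 : Type) [RCLike 𝕜] (X : Type*) [NormedAddCommGroup X] [NormedSpace 𝕜 X]
    [CompleteSpace X] (h1 : LimitOperator 𝕜 X) (h2 : RNP 𝕜 X) : Iso 𝕜 X :=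
  suff 𝕜 X h1 (rep_of_rnp 𝕜 X h2)

end Pool.Agent.Helper234.LInfS
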